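import Pool.Agent.H593R3.FBC.Prog

/-!
# NP-intermediate constraint satisfaction problems of finitely bounded structures

`P ≠ NP` if and only if there is a finitely bounded structure whose constraint satisfaction
problem is `NP`-intermediate. The structure can be chosen to be countable, with relations of
arities between one and three.
-/

namespace Pool.Agent.Results.MP_9e35a6_lc.IntermediateCSP

open Pool.Agent.NPC Pool.Agent.H593R3.FBC

theorem result : (∃ L : Set (List Bool), InNP L ∧ ¬ InP L) ↔
    ∃ (τ : List ℕ) (A : Type) (r : Rels A), (∀ a ∈ τ, 1 ≤ a ∧ a ≤ 3) ∧ Countable A ∧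
      FinitelyBounded τ r ∧ NPIntermediate (CSP τ r) := by
  constructor
  · intro h
    obtain ⟨m, hm, h1, h2⟩ := exists_machine h
    refine ⟨tau m, Dom m, bigR m, fun a ha => ?_, inferInstance, finitelyBounded m,
      csp_inNP hm, not_inP hm h1, not_hard hm h2⟩
    obtain ⟨i, hi⟩ := List.getElem?_of_mem ha
    exact tau_bd hi
  · rintro ⟨τ, A, r, _, _, _, h1, h2, _⟩
    exact ⟨lang (CSP τ r), h1, h2⟩

end Pool.Agent.Results.MP_9e35a6_lc.IntermediateCSP
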